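import Pool.Agent.Y734.R.Stms

/-!
# Project Y734/R, job MON: finitely many points for `n` implies finitely many for `n + 1`
-/

set_option autoImplicit false

namespace Pool.Agent.Y734.R.MON

open Pool.Agent.Y734.M Pool.Agent.Y734.R

/-- A point of `M_{0,n+1}` gives points of `M_{0,n}`. -/
theorem restr {k : Type} [Field k] {r n : ℕ} {S : Finset ℕ} (p : Fin (n + 1))
    {c : Fin (n + 1) → Fin (n + 1) → Fin (n + 1) → Fin (n + 1) → ℂ} (hc : c ∈ Ps k r (n + 1) S) :
    (fun i j l m => c (p.succAbove i) (p.succAbove j) (p.succAbove l) (p.succAbove m)) ∈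
      Ps k r n S := by
  obtain ⟨L, i1, i2, i3, P, φ, hr, ⟨hN, hU⟩, hc⟩ := hc
  refine ⟨L, i1, i2, i3, fun i => P (p.succAbove i), φ, hr, ⟨?_, ?_⟩, ?_⟩
  · intro i j hij
    exact hN _ _ fun h => hij (Fin.succAbove_right_injective h)
  · intro f hf
    exact hU (fun a => p.succAbove (f a)) (Fin.succAbove_right_injective.comp hf)
  · rw [hc]
    rfl

theorem mon : MonStmt := by
  intro k _ _ r n S hn hfin
  have h1 : (Set.univ.pi fun _ : Fin (n + 1) => Ps k r n S).Finite :=
    Set.Finite.pi fun _ => hfin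
  have hinj : Function.Injective
      fun (c : Fin (n + 1) → Fin (n + 1) → Fin (n + 1) → Fin (n + 1) → ℂ) (p : Fin (n + 1))
        (i j l m : Fin n) =>
          c (p.succAbove i) (p.succAbove j) (p.succAbove l) (p.succAbove m) := by
    intro c c' h
    funext i j l m
    obtain ⟨p, hp⟩ : ∃ p : Fin (n + 1), p ∉ ({i, j, l, m} : Finset (Fin (n + 1))) := by
      by_contra hcon
      push Not at hcon
      have h2 : (Finset.univ : Finset (Fin (n + 1))).card ≤
          ({i, j, l, m} : Finset (Fin (n + 1))).card := Finset.card_le_card fun x _ => hcon x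
      have h3 : ({i, j, l, m} : Finset (Fin (n + 1))).card ≤ 4 := Finset.card_le_four
      rw [Finset.card_univ, Fintype.card_fin] at h2
      omega
    simp only [Finset.mem_insert, Finset.mem_singleton, not_or] at hp
    obtain ⟨hi, hj, hl, hm⟩ := hp
    obtain ⟨i', rfl⟩ := Fin.exists_succAbove_eq (Ne.symm hi)
    obtain ⟨j', rfl⟩ := Fin.exists_succAbove_eq (Ne.symm hj)
    obtain ⟨l', rfl⟩ := Fin.exists_succAbove_eq (Ne.symm hl)
    obtain ⟨m', rfl⟩ := Fin.exists_succAbove_eq (Ne.symm hm)
    exact congrFun (congrFun (congrFun (congrFun (congrFun h p) i') j') l') m'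
  refine (h1.preimage hinj.injOn).subset fun c hc => ?_
  rw [Set.mem_preimage, Set.mem_univ_pi]
  exact fun p => restr p hc

end Pool.Agent.Y734.R.MON
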